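import Mathlib

/-!
# The composition of indestructible Blaschke products is indestructible

If `B` is a Blaschke product and `C` is an indestructible Blaschke product then `B ∘ C` is a Blaschke
product: `B` is, up to a unimodular constant, the absolutely convergent product of the automorphisms
vanishing at its zeros; each of these composed with `C` is a Blaschke product, and the resulting
double product converges absolutely at a point where `B ∘ C` is not zero, hence everywhere.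
Consequently the indestructible Blaschke products are closed under composition.
-/

set_option autoImplicit false

open Filter Topology Set Metric

namespace Pool.Agent.Results.MP_4d1c53_an.Composition

/-- The factor `(|a| / a) (a - z) / (1 - conj a z)` of a Blaschke product. -/
noncomputable def factor (a z : ℂ) : ℂ :=
  (‖a‖ : ℂ) / a * ((a - z) / (1 - (starRingEnd ℂ) a * z))

/-- `B` is (on the open unit disc) a Blaschke product: nonconstant and of the form
`e ^ (i θ) z ^ m ∏ (|a_i| / a_i) (a_i - z) / (1 - conj a_i z)` with a finite or infinite sequence of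
points `a_i ≠ 0` of the disc with `∑ (1 - |a_i|) < ∞`. -/
def IsBlaschke (B : ℂ → ℂ) : Prop :=
  (∃ z w : ℂ, ‖z‖ < 1 ∧ ‖w‖ < 1 ∧ B z ≠ B w) ∧
  ∃ (θ : ℝ) (m : ℕ) (ι : Type) (_ : Countable ι) (a : ι → ℂ),
    (∀ i, a i ≠ 0 ∧ ‖a i‖ < 1) ∧ Summable (fun i => 1 - ‖a i‖) ∧
    ∀ z : ℂ, ‖z‖ < 1 → ∃ P : ℂ, HasProd (fun i => factor (a i) z) P ∧
      B z = Complex.exp (θ * Complex.I) * z ^ m * P

/-- The conformal automorphism `w ↦ e ^ (i φ) (w - a) / (1 - conj a w)` of the disc. -/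
noncomputable def aut (φ : ℝ) (a w : ℂ) : ℂ :=
  Complex.exp (φ * Complex.I) * ((w - a) / (1 - (starRingEnd ℂ) a * w))

/-- `B` is an indestructible Blaschke product. -/
def Indestructible (B : ℂ → ℂ) : Prop :=
  IsBlaschke B ∧ ∀ (φ : ℝ) (a : ℂ), ‖a‖ < 1 → IsBlaschke (fun z => aut φ a (B z))

/-! ## Elementary factors -/

/-- the factor with the convention for `a = 0` -/
noncomputable def beta (a z : ℂ) : ℂ := if a = 0 then z else factor a z

lemma den_ne {a z : ℂ} (ha : ‖a‖ < 1) (hz : ‖z‖ < 1) : 1 - (starRingEnd ℂ) a * z ≠ 0 := by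
  intro h
  have h1 : (starRingEnd ℂ) a * z = 1 := by linear_combination -h
  have h2 : ‖a‖ * ‖z‖ = 1 := by
    rw [← Complex.norm_conj a, ← norm_mul, h1, norm_one]
  nlinarith [norm_nonneg a, norm_nonneg z]

/-- `beta a` is an automorphism -/
lemma beta_eq_aut (a : ℂ) : ∃ φ : ℝ, ∀ w : ℂ, beta a w = aut φ a w := by
  by_cases ha : a = 0
  · refine ⟨0, fun w => ?_⟩
    simp [beta, aut, ha]
  · have hn : (‖a‖ : ℂ) ≠ 0 := by exact_mod_cast norm_ne_zero_iff.2 ha
    set u : ℂ := -((‖a‖ : ℂ) / a) with hu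
    have hu1 : ‖u‖ = 1 := by
      rw [hu, norm_neg, norm_div, Complex.norm_real, norm_norm, div_self (norm_ne_zero_iff.2 ha)]
    refine ⟨Complex.arg u, fun w => ?_⟩
    have h1 : Complex.exp (Complex.arg u * Complex.I) = u := by
      have := Complex.norm_mul_exp_arg_mul_I u
      rwa [hu1, Complex.ofReal_one, one_mul] at this
    simp only [beta, aut, ha, if_false, factor]
    rw [h1, hu]
    ring

lemma norm_beta_sq {a z : ℂ} (ha : ‖a‖ < 1) (hz : ‖z‖ < 1) :
    1 - ‖beta a z‖ ^ 2 = (1 - ‖a‖ ^ 2) * (1 - ‖z‖ ^ 2) / ‖1 - (starRingEnd ℂ) a * z‖ ^ 2 := by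
  have hd := den_ne ha hz
  have hd2 : ‖1 - (starRingEnd ℂ) a * z‖ ^ 2 ≠ 0 := by positivity
  obtain ⟨φ, hφ⟩ := beta_eq_aut a
  rw [hφ]
  unfold aut
  rw [norm_mul, Complex.norm_exp_ofReal_mul_I, one_mul, norm_div, div_pow, eq_div_iff hd2, sub_mul,
    div_mul_cancel₀ _ hd2, one_mul]
  simp only [← Complex.normSq_eq_norm_sq]
  simp only [Complex.normSq_apply, Complex.sub_re, Complex.sub_im, Complex.mul_re, Complex.mul_im,
    Complex.conj_re, Complex.conj_im, Complex.one_re, Complex.one_im]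
  ring

lemma norm_beta_lt {a z : ℂ} (ha : ‖a‖ < 1) (hz : ‖z‖ < 1) : ‖beta a z‖ < 1 := by
  have h1 := norm_beta_sq ha hz
  have h2 : 0 < (1 - ‖a‖ ^ 2) * (1 - ‖z‖ ^ 2) / ‖1 - (starRingEnd ℂ) a * z‖ ^ 2 := by
    have := den_ne ha hz
    have h3 : 0 < 1 - ‖a‖ ^ 2 := by nlinarith [norm_nonneg a]
    have h4 : 0 < 1 - ‖z‖ ^ 2 := by nlinarith [norm_nonneg z]
    positivity
  rw [← h1] at h2
  nlinarith [norm_nonneg (beta a z)]

lemma norm_den_le {a z : ℂ} (ha : ‖a‖ < 1) (hz : ‖z‖ < 1) : ‖1 - (starRingEnd ℂ) a * z‖ ≤ 2 := by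
  have h1 : ‖1 - (starRingEnd ℂ) a * z‖ ≤ ‖(1 : ℂ)‖ + ‖(starRingEnd ℂ) a * z‖ := norm_sub_le _ _
  rw [norm_one, norm_mul, Complex.norm_conj] at h1
  nlinarith [norm_nonneg a, norm_nonneg z]

lemma den_lower {a z : ℂ} (ha : ‖a‖ < 1) (hz : ‖z‖ < 1) :
    1 - ‖z‖ ≤ ‖1 - (starRingEnd ℂ) a * z‖ := by
  have h1 : ‖(1 : ℂ)‖ - ‖(starRingEnd ℂ) a * z‖ ≤ ‖1 - (starRingEnd ℂ) a * z‖ :=
    norm_sub_norm_le _ _
  rw [norm_one, norm_mul, Complex.norm_conj] at h1
  nlinarith [norm_nonneg a, norm_nonneg z]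

/-- lower bound used for the summability of the zeros -/
lemma one_sub_sq_ge {a z : ℂ} (ha : ‖a‖ < 1) (hz : ‖z‖ < 1) :
    (1 - ‖a‖) * ((1 - ‖z‖ ^ 2) / 4) ≤ 1 - ‖beta a z‖ ^ 2 := by
  rw [norm_beta_sq ha hz]
  have hd := den_ne ha hz
  have hd1 : 0 < ‖1 - (starRingEnd ℂ) a * z‖ := norm_pos_iff.2 hd
  have hd2 := norm_den_le ha hz
  have h3 : 1 - ‖a‖ ≤ 1 - ‖a‖ ^ 2 := by nlinarith [norm_nonneg a]
  have h4 : 0 < 1 - ‖z‖ ^ 2 := by nlinarith [norm_nonneg z]
  have h5 : 0 < 1 - ‖a‖ := by linarith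
  rw [le_div_iff₀ (by positivity)]
  have h6 : ‖1 - (starRingEnd ℂ) a * z‖ ^ 2 ≤ 4 := by nlinarith
  calc (1 - ‖a‖) * ((1 - ‖z‖ ^ 2) / 4) * ‖1 - (starRingEnd ℂ) a * z‖ ^ 2
      ≤ (1 - ‖a‖) * ((1 - ‖z‖ ^ 2) / 4) * 4 :=
        mul_le_mul_of_nonneg_left h6 (by positivity)
    _ = (1 - ‖a‖) * (1 - ‖z‖ ^ 2) := by ring
    _ ≤ _ := mul_le_mul_of_nonneg_right h3 h4.le

/-- upper bound used for the convergence -/
lemma norm_beta_sub_one_le {a z : ℂ} (ha : ‖a‖ < 1) (hz : ‖z‖ < 1) :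
    ‖beta a z - 1‖ ≤ (1 - ‖a‖) * (2 / (1 - ‖z‖)) := by
  have hz1 : 0 < 1 - ‖z‖ := by linarith
  by_cases h0 : a = 0
  · have h1 : ‖z - 1‖ ≤ ‖z‖ + ‖(1 : ℂ)‖ := norm_sub_le _ _
    rw [norm_one] at h1
    simp only [beta, h0, if_true, norm_zero, sub_zero, one_mul]
    refine h1.trans ?_
    rw [le_div_iff₀ hz1]
    nlinarith [norm_nonneg z]
  · have hd := den_ne ha hz
    have hn : (‖a‖ : ℂ) ≠ 0 := by exact_mod_cast norm_ne_zero_iff.2 h0
    have hna : 0 < ‖a‖ := norm_pos_iff.2 h0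
    have hsq : (starRingEnd ℂ) a * a = (‖a‖ : ℂ) ^ 2 := by
      rw [← Complex.normSq_eq_conj_mul_self, Complex.normSq_eq_norm_sq]
      push_cast; rfl
    have h1 : beta a z - 1 = -((1 - (‖a‖ : ℂ)) * ((a + ‖a‖ * z) / (a * (1 - (starRingEnd ℂ) a * z)))) := by
      simp only [beta, h0, if_false, factor]
      have hd' : (starRingEnd ℂ) a * z = 1 - (1 - (starRingEnd ℂ) a * z) := by ring
      set d := 1 - (starRingEnd ℂ) a * z with hddef
      rw [eq_neg_iff_add_eq_zero]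
      have e1 : (‖a‖ : ℂ) / a * ((a - z) / d) - 1 + (1 - (‖a‖ : ℂ)) * ((a + ‖a‖ * z) / (a * d)) =
          ((‖a‖ : ℂ) * (a - z) - a * d + (1 - (‖a‖ : ℂ)) * (a + ‖a‖ * z)) / (a * d) := by
        field_simp
      rw [e1, div_eq_zero_iff]
      left
      linear_combination z * hsq - a * hd'
    rw [h1, norm_neg, norm_mul, norm_div, norm_mul]
    have h2 : ‖(1 - (‖a‖ : ℂ))‖ = 1 - ‖a‖ := by
      rw [← Complex.ofReal_one, ← Complex.ofReal_sub, Complex.norm_real, Real.norm_of_nonneg]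
      linarith
    rw [h2]
    apply mul_le_mul_of_nonneg_left _ (by linarith)
    have h3 : ‖a + ‖a‖ * z‖ ≤ ‖a‖ * 2 := by
      refine (norm_add_le _ _).trans ?_
      rw [norm_mul, Complex.norm_real, norm_norm]
      nlinarith
    have h4 := den_lower ha hz
    rw [div_le_div_iff₀ (mul_pos hna (norm_pos_iff.2 hd)) hz1]
    calc ‖a + ‖a‖ * z‖ * (1 - ‖z‖) ≤ (‖a‖ * 2) * ‖1 - (starRingEnd ℂ) a * z‖ :=
          mul_le_mul h3 h4 hz1.le (by positivity)
      _ = _ := by ring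

lemma beta_self {a : ℂ} : beta a a = 0 := by
  by_cases h0 : a = 0
  · simp [beta, h0]
  · simp [beta, h0, factor]

lemma beta_zero_iff {a z : ℂ} (ha : ‖a‖ < 1) (hz : ‖z‖ < 1) (h : beta a z = 0) : z = a := by
  obtain ⟨φ, hφ⟩ := beta_eq_aut a
  rw [hφ] at h
  unfold aut at h
  have h1 := (mul_eq_zero.1 h).resolve_left (Complex.exp_ne_zero _)
  rcases div_eq_zero_iff.1 h1 with h2 | h2
  · exact sub_eq_zero.1 h2
  · exact absurd h2 (den_ne ha hz)

/-! ## Families -/

section fam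

variable {K : Type} {Z : K → ℂ}

lemma summable_beta (hZ : ∀ k, ‖Z k‖ < 1) (hs : Summable (fun k => 1 - ‖Z k‖)) {z : ℂ}
    (hz : ‖z‖ < 1) : Summable (fun k => ‖beta (Z k) z - 1‖) :=
  Summable.of_nonneg_of_le (fun k => norm_nonneg _)
    (fun k => norm_beta_sub_one_le (hZ k) hz) (hs.mul_right _)

lemma multipliable_beta (hZ : ∀ k, ‖Z k‖ < 1) (hs : Summable (fun k => 1 - ‖Z k‖)) {z : ℂ}
    (hz : ‖z‖ < 1) : Multipliable (fun k => beta (Z k) z) := by
  have := multipliable_one_add_of_summable (summable_beta hZ hs hz)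
  simpa using this

lemma exists_zero_of_hasProd (hZ : ∀ k, ‖Z k‖ < 1) (hs : Summable (fun k => 1 - ‖Z k‖)) {z : ℂ}
    (hz : ‖z‖ < 1) (h : HasProd (fun k => beta (Z k) z) 0) : ∃ k, z = Z k := by
  by_contra hcon
  push Not at hcon
  have h1 : ∀ k, 1 + (beta (Z k) z - 1) ≠ 0 := by
    intro k hk
    exact hcon k (beta_zero_iff (hZ k) hz (by linear_combination hk))
  have h2 := tprod_one_add_ne_zero_of_summable h1 (summable_beta hZ hs hz)
  apply h2
  have : (fun k => 1 + (beta (Z k) z - 1)) = fun k => beta (Z k) z := by funext k; ring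
  rw [this]
  exact h.tprod_eq

lemma countable_of_summable (hZ : ∀ k, ‖Z k‖ < 1) (hs : Summable (fun k => 1 - ‖Z k‖)) :
    Countable K := by
  have h1 := hs.countable_support
  have h2 : Function.support (fun k => 1 - ‖Z k‖) = univ := by
    ext k
    simp only [Function.mem_support, mem_univ, iff_true]
    have := hZ k
    intro h; linarith
  rw [h2] at h1
  exact Set.countable_univ_iff.1 h1

lemma not_countable_ball {s : Set ℂ} (hs : s.Countable) : ∃ z : ℂ, ‖z‖ < 1 ∧ z ∉ s := by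
  by_contra hcon
  push Not at hcon
  have h1 : ball (0 : ℂ) 1 ⊆ s := fun z hz => hcon z (by simpa using hz)
  have h2 : MeasureTheory.volume (ball (0 : ℂ) 1) = 0 :=
    MeasureTheory.measure_mono_null h1 (hs.measure_zero _)
  exact absurd h2 (measure_ball_pos _ _ one_pos).ne'

/-- a product of numbers of modulus at most one is at most its finite parts -/
lemma norm_le_finset {ι : Type} {f : ι → ℂ} {P : ℂ} (h : HasProd f P) (hf : ∀ i, ‖f i‖ ≤ 1)
    (F : Finset ι) : ‖P‖ ≤ ∏ i ∈ F, ‖f i‖ := by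
  classical
  have h1 : Tendsto (fun s : Finset ι => ‖∏ i ∈ s, f i‖) atTop (𝓝 ‖P‖) := by
    have h2 : Tendsto (fun s : Finset ι => ∏ i ∈ s, f i) atTop (𝓝 P) := by
      simpa [HasProd] using h
    exact h2.norm
  refine le_of_tendsto h1 ?_
  filter_upwards [eventually_ge_atTop F] with s hs
  rw [norm_prod]
  exact Finset.prod_le_prod_of_subset_of_le_one hs (fun i _ => norm_nonneg _) (fun i _ _ => hf i)

end fam

/-- `B` is a unimodular constant times a convergent product of automorphisms, in the disc. -/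
def Fam (B : ℂ → ℂ) : Prop :=
  ∃ (u : ℂ) (K : Type) (Z : K → ℂ), ‖u‖ = 1 ∧ Nonempty K ∧ (∀ k, ‖Z k‖ < 1) ∧
    Summable (fun k => 1 - ‖Z k‖) ∧
    ∀ z : ℂ, ‖z‖ < 1 → ∃ P : ℂ, HasProd (fun k => beta (Z k) z) P ∧ B z = u * P

lemma fam_of_isBlaschke {B : ℂ → ℂ} (hB : IsBlaschke B) : Fam B := by
  obtain ⟨⟨z₁, z₂, hz₁, hz₂, hne⟩, θ, m, ι, _, a, ha, hs, hP⟩ := hB
  have hprod : ∀ z : ℂ, ‖z‖ < 1 → ∃ P : ℂ,
      HasProd (fun k => beta (Sum.elim (fun _ : Fin m => (0 : ℂ)) a k) z) P ∧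
      B z = Complex.exp (θ * Complex.I) * P := by
    intro z hz
    obtain ⟨P, h1, h2⟩ := hP z hz
    refine ⟨z ^ m * P, ?_, by rw [h2]; ring⟩
    apply HasProd.sum
    · have h3 := hasProd_fintype (fun _ : Fin m => z)
      rw [Finset.prod_const, Finset.card_univ, Fintype.card_fin] at h3
      have h4 : ((fun k => beta (Sum.elim (fun _ : Fin m => (0 : ℂ)) a k) z) ∘ Sum.inl) =
          fun _ : Fin m => z := by
        funext k
        simp [beta]
      rw [h4]; exact h3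
    · have h4 : ((fun k => beta (Sum.elim (fun _ : Fin m => (0 : ℂ)) a k) z) ∘ Sum.inr) =
          fun i => factor (a i) z := by
        funext k
        simp [beta, (ha k).1]
      rw [h4]; exact h1
  refine ⟨Complex.exp (θ * Complex.I), Fin m ⊕ ι, Sum.elim (fun _ => 0) a,
    Complex.norm_exp_ofReal_mul_I θ, ?_, ?_, ?_, hprod⟩
  · by_contra hcon
    rw [not_nonempty_iff] at hcon
    obtain ⟨P₁, h1, h2⟩ := hprod z₁ hz₁
    obtain ⟨P₂, h3, h4⟩ := hprod z₂ hz₂
    apply hne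
    rw [h2, h4, h1.unique hasProd_empty, h3.unique hasProd_empty]
  · rintro (k | k)
    · simp
    · exact (ha k).2
  · have h5 : Summable (fun _ : Fin m => (1 : ℝ) - ‖(0 : ℂ)‖) := (hasSum_fintype _).summable
    exact (h5.hasSum.sum (f := fun k => 1 - ‖Sum.elim (fun _ : Fin m => (0 : ℂ)) a k‖)
      hs.hasSum).summable

lemma isBlaschke_of_fam {B : ℂ → ℂ} (hB : Fam B) : IsBlaschke B := by
  classical
  obtain ⟨u, K, Z, hu, ⟨k₀⟩, hZ, hs, hP⟩ := hB
  have hcount : Countable K := countable_of_summable hZ hs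
  have hu0 : u ≠ 0 := by
    intro h; rw [h, norm_zero] at hu; exact zero_ne_one hu
  refine ⟨?_, Complex.arg u, ?_⟩
  · obtain ⟨w, hw, hw2⟩ := not_countable_ball (Set.countable_range Z)
    refine ⟨Z k₀, w, hZ k₀, hw, ?_⟩
    obtain ⟨P₁, h1, h2⟩ := hP (Z k₀) (hZ k₀)
    obtain ⟨P₂, h3, h4⟩ := hP w hw
    have h5 : P₁ = 0 := h1.unique (hasProd_zero_of_exists_eq_zero ⟨k₀, beta_self⟩)
    rw [h2, h4, h5, mul_zero]
    intro h6
    have h7 : P₂ = 0 := (mul_eq_zero.1 h6.symm).resolve_left hu0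
    rw [h7] at h3
    obtain ⟨k, hk⟩ := exists_zero_of_hasProd hZ hs hw h3
    exact hw2 ⟨k, hk.symm⟩
  · have hfin : {k : K | Z k = 0}.Finite := by
      have h1 := hs.tendsto_cofinite_zero
      have h2 := h1.eventually (gt_mem_nhds (show (0:ℝ) < 1 by norm_num))
      rw [eventually_cofinite] at h2
      refine h2.subset fun k hk => ?_
      have hk : Z k = 0 := hk
      show ¬ (1 - ‖Z k‖ < 1)
      rw [hk]; simp
    have := hfin.fintype
    refine ⟨Fintype.card {k : K | Z k = 0}, ({k : K | Z k = 0}ᶜ : Set K), inferInstance,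
      fun i => Z i, fun i => ⟨i.2, hZ i⟩, hs.comp_injective Subtype.val_injective, ?_⟩
    intro z hz
    obtain ⟨P, h1, h2⟩ := hP z hz
    have hZ' : ∀ i : ({k : K | Z k = 0}ᶜ : Set K), ‖Z i‖ < 1 := fun i => hZ i
    have h3 := (multipliable_beta hZ' (hs.comp_injective Subtype.val_injective) hz).hasProd
    set q := ∏' k : ({k : K | Z k = 0}ᶜ : Set K), beta (Z k) z with hq
    have h4 : HasProd ((fun k => beta (Z k) z) ∘ ((↑) : {k : K | Z k = 0} → K))
        (z ^ Fintype.card {k : K | Z k = 0}) := by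
      have h5 := hasProd_fintype (fun _ : {k : K | Z k = 0} => z)
      rw [Finset.prod_const, Finset.card_univ] at h5
      have h6 : ((fun k => beta (Z k) z) ∘ ((↑) : {k : K | Z k = 0} → K)) = fun _ => z := by
        funext k
        have : Z k = 0 := k.2
        simp [beta, this]
      rw [h6]; exact h5
    have h7 := h4.mul_compl h3
    have h8 : P = z ^ Fintype.card {k : K | Z k = 0} * q := h1.unique h7
    refine ⟨q, ?_, ?_⟩
    · have h9 : (fun i : ({k : K | Z k = 0}ᶜ : Set K) => factor (Z i) z) =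
          fun k : ({k : K | Z k = 0}ᶜ : Set K) => beta (Z k) z := by
        funext k
        have : Z k ≠ 0 := k.2
        simp [beta, this]
      rw [h9]; exact h3
    · have h10 : Complex.exp (Complex.arg u * Complex.I) = u := by
        have := Complex.norm_mul_exp_arg_mul_I u
        rwa [hu, Complex.ofReal_one, one_mul] at this
      rw [h2, h8, h10]; ring

lemma norm_lt_of_fam {B : ℂ → ℂ} (hB : Fam B) {z : ℂ} (hz : ‖z‖ < 1) : ‖B z‖ < 1 := by
  obtain ⟨u, K, Z, hu, ⟨k₀⟩, hZ, hs, hP⟩ := hB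
  obtain ⟨P, h1, h2⟩ := hP z hz
  have h3 := norm_le_finset h1 (fun k => (norm_beta_lt (hZ k) hz).le) {k₀}
  rw [Finset.prod_singleton] at h3
  rw [h2, norm_mul, hu, one_mul]
  exact h3.trans_lt (norm_beta_lt (hZ k₀) hz)

/-- **Key step**: a Blaschke product composed with an indestructible one is a Blaschke product. -/
lemma fam_comp {B C : ℂ → ℂ} (hB : Fam B) (hC : Indestructible C) : Fam (fun z => B (C z)) := by
  classical
  have hCF : Fam C := fam_of_isBlaschke hC.1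
  obtain ⟨u, I, a, hu, ⟨i₀⟩, ha, hsa, hP⟩ := hB
  have hu0 : u ≠ 0 := by
    intro h; rw [h, norm_zero] at hu; exact zero_ne_one hu
  have hcI : Countable I := countable_of_summable ha hsa
  have hfac : ∀ i, Fam (fun z => beta (a i) (C z)) := by
    intro i
    obtain ⟨φ, hφ⟩ := beta_eq_aut (a i)
    have h1 := fam_of_isBlaschke (hC.2 φ (a i) (ha i))
    simpa only [← hφ] using h1
  choose v K Z hv hK hZ hsZ hQ using hfac
  have hQ : ∀ (i : I) (z : ℂ), ‖z‖ < 1 → ∃ P, HasProd (fun k => beta (Z i k) z) P ∧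
      beta (a i) (C z) = v i * P := hQ
  -- a point where the composition does not vanish
  have hz₀ : ∃ z₀ : ℂ, ‖z₀‖ < 1 ∧ ∀ i, z₀ ∉ range (Z i) := by
    have : (⋃ i, range (Z i)).Countable := by
      apply Set.countable_iUnion
      intro i
      have : Countable (K i) := countable_of_summable (hZ i) (hsZ i)
      exact Set.countable_range _
    obtain ⟨z₀, h1, h2⟩ := not_countable_ball this
    exact ⟨z₀, h1, fun i hi => h2 (mem_iUnion.2 ⟨i, hi⟩)⟩
  obtain ⟨z₀, hz₀, hz₀'⟩ := hz₀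
  have hC₀ : ‖C z₀‖ < 1 := norm_lt_of_fam hCF hz₀
  have hv0 : ∀ i, v i ≠ 0 := by
    intro i h
    have := hv i
    rw [h, norm_zero] at this; exact zero_ne_one this
  have hbne : ∀ i, beta (a i) (C z₀) ≠ 0 := by
    intro i h
    obtain ⟨Q, h1, h2⟩ := hQ i z₀ hz₀
    rw [h] at h2
    have h3 : Q = 0 := (mul_eq_zero.1 h2.symm).resolve_left (hv0 i)
    rw [h3] at h1
    obtain ⟨k, hk⟩ := exists_zero_of_hasProd (hZ i) (hsZ i) hz₀ h1
    exact hz₀' i ⟨k, hk.symm⟩
  obtain ⟨P₀, hP₀, -⟩ := hP (C z₀) hC₀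
  have hP₀ne : P₀ ≠ 0 := by
    intro h
    rw [h] at hP₀
    obtain ⟨i, hi⟩ := exists_zero_of_hasProd ha hsa hC₀ hP₀
    apply hbne i
    rw [hi]; exact beta_self
  -- all zeros together
  set W : (Σ i, K i) → ℂ := fun p => Z p.1 p.2 with hW
  have hW1 : ∀ p, ‖W p‖ < 1 := fun p => hZ p.1 p.2
  have hfin : ∀ F : Finset (Σ i, K i), ‖P₀‖ ≤ ∏ p ∈ F, ‖beta (W p) z₀‖ := by
    intro F
    have h1 := norm_le_finset hP₀ (fun i => (norm_beta_lt (ha i) hC₀).le) (F.image Sigma.fst)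
    refine h1.trans ?_
    have h2 : ∏ p ∈ F, ‖beta (W p) z₀‖ = ∏ i ∈ F.image Sigma.fst,
        ∏ k ∈ F.preimage (Sigma.mk i) sigma_mk_injective.injOn, ‖beta (Z i k) z₀‖ := by
      rw [Finset.prod_sigma' (F.image Sigma.fst)
        (fun i => F.preimage (Sigma.mk i) sigma_mk_injective.injOn)
        (fun i k => ‖beta (Z i k) z₀‖), Finset.sigma_image_fst_preimage_mk]
    rw [h2]
    apply Finset.prod_le_prod (fun i _ => norm_nonneg _)
    intro i _
    obtain ⟨Q, h3, h4⟩ := hQ i z₀ hz₀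
    rw [h4, norm_mul, hv, one_mul]
    exact norm_le_finset h3 (fun k => (norm_beta_lt (hZ i k) hz₀).le) _
  have hsW : Summable (fun p => 1 - ‖W p‖) := by
    have hz2 : 0 < (1 - ‖z₀‖ ^ 2) / 4 := by nlinarith [norm_nonneg z₀]
    have hP0pos : 0 < ‖P₀‖ := norm_pos_iff.2 hP₀ne
    refine summable_of_sum_le (c := -2 * Real.log ‖P₀‖ / ((1 - ‖z₀‖ ^ 2) / 4))
      (fun p => by have := hW1 p; show 0 ≤ 1 - ‖W p‖; linarith) ?_
    intro F
    rw [le_div_iff₀ hz2, Finset.sum_mul]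
    have hpos : ∀ p, 0 < ‖beta (W p) z₀‖ := by
      intro p
      rw [norm_pos_iff]
      intro h
      exact hz₀' p.1 ⟨p.2, (beta_zero_iff (hW1 p) hz₀ h).symm⟩
    calc ∑ p ∈ F, (1 - ‖W p‖) * ((1 - ‖z₀‖ ^ 2) / 4)
        ≤ ∑ p ∈ F, (1 - ‖beta (W p) z₀‖ ^ 2) :=
          Finset.sum_le_sum fun p _ => one_sub_sq_ge (hW1 p) hz₀
      _ ≤ ∑ p ∈ F, -2 * Real.log ‖beta (W p) z₀‖ := by
          apply Finset.sum_le_sum
          intro p _
          have h1 := Real.log_le_sub_one_of_pos (pow_pos (hpos p) 2)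
          rw [Real.log_pow] at h1
          push_cast at h1
          linarith
      _ = -2 * Real.log (∏ p ∈ F, ‖beta (W p) z₀‖) := by
          rw [← Finset.mul_sum, Real.log_prod]
          intro p _
          exact (hpos p).ne'
      _ ≤ -2 * Real.log ‖P₀‖ := by
          have := Real.log_le_log hP0pos (hfin F)
          linarith
  -- the product of the constants converges
  have hsig : ∀ z : ℂ, ‖z‖ < 1 → ∀ Q : I → ℂ,
      (∀ i, HasProd (fun k => beta (Z i k) z) (Q i)) →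
      HasProd Q (∏' p, beta (W p) z) := by
    intro z hz Q h
    exact (multipliable_beta hW1 hsW hz).hasProd.sigma h
  choose Q₀ hQ₀ hQ₀' using fun i => hQ i z₀ hz₀
  have h5 := hsig z₀ hz₀ Q₀ hQ₀
  set R₀ := ∏' p, beta (W p) z₀ with hR₀
  have hR₀ne : R₀ ≠ 0 := by
    intro h
    have h6 := (multipliable_beta hW1 hsW hz₀).hasProd
    rw [← hR₀, h] at h6
    obtain ⟨p, hp⟩ := exists_zero_of_hasProd hW1 hsW hz₀ h6
    exact hz₀' p.1 ⟨p.2, hp.symm⟩
  have hvc : HasProd v (P₀ / R₀) := by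
    have h7 : Tendsto (fun s : Finset I => (∏ i ∈ s, beta (a i) (C z₀)) / ∏ i ∈ s, Q₀ i) atTop
        (𝓝 (P₀ / R₀)) := by
      have h8 : Tendsto (fun s : Finset I => ∏ i ∈ s, beta (a i) (C z₀)) atTop (𝓝 P₀) := by
        simpa [HasProd] using hP₀
      have h9 : Tendsto (fun s : Finset I => ∏ i ∈ s, Q₀ i) atTop (𝓝 R₀) := by
        simpa [HasProd] using h5
      exact h8.div h9 hR₀ne
    have h10 : (fun s : Finset I => (∏ i ∈ s, beta (a i) (C z₀)) / ∏ i ∈ s, Q₀ i) =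
        fun s => ∏ i ∈ s, v i := by
      funext s
      rw [← Finset.prod_div_distrib]
      apply Finset.prod_congr rfl
      intro i _
      have h11 := hQ₀' i
      have h12 : Q₀ i ≠ 0 := by
        intro h; rw [h, mul_zero] at h11; exact hbne i h11
      rw [div_eq_iff h12]; exact h11
    rw [h10] at h7
    simpa [HasProd] using h7
  have hvn : ‖P₀ / R₀‖ = 1 := by
    have h7 : Tendsto (fun s : Finset I => ‖∏ i ∈ s, v i‖) atTop (𝓝 ‖P₀ / R₀‖) := by
      have h2 : Tendsto (fun s : Finset I => ∏ i ∈ s, v i) atTop (𝓝 (P₀ / R₀)) := by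
        simpa [HasProd] using hvc
      exact h2.norm
    have h8 : (fun s : Finset I => ‖∏ i ∈ s, v i‖) = fun _ => 1 := by
      funext s
      rw [norm_prod]
      exact Finset.prod_eq_one fun i _ => hv i
    rw [h8] at h7
    exact tendsto_nhds_unique h7 tendsto_const_nhds
  refine ⟨u * (P₀ / R₀), (Σ i, K i), W, by rw [norm_mul, hu, hvn, one_mul], ?_, hW1, hsW, ?_⟩
  · obtain ⟨k⟩ := hK i₀
    exact ⟨⟨i₀, k⟩⟩
  · intro z hz
    refine ⟨∏' p, beta (W p) z, (multipliable_beta hW1 hsW hz).hasProd, ?_⟩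
    have hCz : ‖C z‖ < 1 := norm_lt_of_fam hCF hz
    obtain ⟨P, hP1, hP2⟩ := hP (C z) hCz
    choose Q hQ1 hQ2 using fun i => hQ i z hz
    have h7 := hvc.mul (hsig z hz Q hQ1)
    have h8 : (fun i => v i * Q i) = fun i => beta (a i) (C z) := by
      funext i; exact (hQ2 i).symm
    rw [h8] at h7
    show B (C z) = _
    rw [hP2, hP1.unique h7]
    ring

/-- **Main result.** (1) If `B` is a Blaschke product and `C` is an indestructible Blaschke product
then `B ∘ C` is a Blaschke product. (2) If `B` and `C` are indestructible Blaschke products then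
`B ∘ C` is an indestructible Blaschke product. -/
theorem result :
    (∀ B C : ℂ → ℂ, IsBlaschke B → Indestructible C → IsBlaschke (fun z => B (C z))) ∧
    (∀ B C : ℂ → ℂ, Indestructible B → Indestructible C → Indestructible (fun z => B (C z))) := by
  have h : ∀ B C : ℂ → ℂ, IsBlaschke B → Indestructible C → IsBlaschke (fun z => B (C z)) :=
    fun B C hB hC => isBlaschke_of_fam (fam_comp (fam_of_isBlaschke hB) hC)
  exact ⟨h, fun B C hB hC => ⟨h B C hB.1 hC, fun φ a ha => h _ C (hB.2 φ a ha) hC⟩⟩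

end Pool.Agent.Results.MP_4d1c53_an.Composition
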